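import Pool.Agent.Run7.h146.Met.I2

set_option autoImplicit false

open MeasureTheory Filter Topology ENNReal

namespace Run7.h622.Met

open Run7.h146.Met

/-- continuity from above for a decreasing sequence of measurable sets -/
theorem cont_above {Ω : Type} [MeasurableSpace Ω] (P : Measure Ω) [IsFiniteMeasure P] (U : ℕ → Set Ω)
    (hU : ∀ n, MeasurableSet (U n)) (hanti : Antitone U) (a : ℝ≥0∞) (ha : ∀ n, a ≤ P (U n)) :
    a ≤ P (⋂ n, U n) := by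
  have h := tendsto_measure_iInter_atTop (μ := P) (fun n => (hU n).nullMeasurableSet) hanti
    ⟨0, measure_ne_top _ _⟩
  exact ge_of_tendsto' h ha

open Classical in
theorem stab {d : ℕ} {ε : ℝ} (S : Set (X d))
    (hmem : ∀ (R : ℝ) (z : X d), z ∈ fs S R ↔ z ∈ S ∧ ‖z.1‖ < R)
    (hu : ∀ z ∈ S, ‖z.2‖ = 1)
    (he : ∀ z ∈ S, ∀ T : ℝ, ∃ R₀ : ℝ, ∀ R : ℝ, R₀ ≤ R → ∀ t : ℝ, 0 ≤ t → t ≤ T →
      (ExistsAt ε S R z t ↔ ExistsAt ε S R₀ z t)) (N : ℝ) :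
    ∃ (R₁ : ℝ) (Z : Finset (X d)), (∀ R, R₁ ≤ R → Occ ε N (fs S R) = Z.card) ∧
      ∀ z ∈ Z, z ∈ S ∧ Occupies ε S z := by
  have hex : ∀ z, ∃ R₀ : ℝ, z ∈ S → ∀ R : ℝ, R₀ ≤ R → ∀ t : ℝ, 0 ≤ t → t ≤ N →
      (ExistsAt ε S R z t ↔ ExistsAt ε S R₀ z t) := by
    intro z
    by_cases hz : z ∈ S
    · obtain ⟨R₀, h⟩ := he z hz N
      exact ⟨R₀, fun _ => h⟩
    · exact ⟨0, fun h => absurd h hz⟩
  choose R₀ hR₀ using hex
  obtain ⟨Cd, hCd⟩ : ∃ Cd, Cd = fs S (N + ε + 1) := ⟨_, rfl⟩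
  have hCm : ∀ z, z ∈ Cd ↔ z ∈ S ∧ ‖z.1‖ < N + ε + 1 := by
    intro z
    rw [hCd]
    exact hmem _ z
  obtain ⟨M, hM⟩ : ∃ M : ℝ, ∀ z ∈ Cd, R₀ z ≤ M :=
    ⟨∑ z ∈ Cd, |R₀ z|, fun z hz => (le_abs_self _).trans
      (Finset.single_le_sum (f := fun z => |R₀ z|) (fun _ _ => abs_nonneg _) hz)⟩
  refine ⟨max M (N + ε + 1), Cd.filter (fun z => ∃ t, 0 ≤ t ∧ t ≤ N ∧
    ExistsAt ε S (R₀ z) z t ∧ ‖pos z t‖ ≤ ε), ?_, ?_⟩
  · intro R hR
    unfold Occ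
    congr 1
    ext z
    rw [Finset.mem_filter, Finset.mem_filter]
    constructor
    · rintro ⟨h1, t, h2, h3, h4, h5⟩
      have hzS := ((hmem R z).1 h1).1
      have hnorm : ‖z.1‖ ≤ ε + t := by
        have hz : z.1 = pos z t - t • z.2 := by unfold pos; abel
        calc ‖z.1‖ = ‖pos z t - t • z.2‖ := by rw [← hz]
          _ ≤ ‖pos z t‖ + ‖t • z.2‖ := norm_sub_le _ _
          _ ≤ ε + t := by
            rw [norm_smul, hu z hzS, mul_one, Real.norm_of_nonneg h2]; linarith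
      have hzC : z ∈ Cd := (hCm z).2 ⟨hzS, by linarith⟩
      refine ⟨hzC, t, h2, h3, ?_, h5⟩
      exact (hR₀ z hzS R ((hM z hzC).trans ((le_max_left _ _).trans hR)) t h2 h3).1 h4
    · rintro ⟨h1, t, h2, h3, h4, h5⟩
      have h6 := (hCm z).1 h1
      refine ⟨(hmem R z).2 ⟨h6.1, lt_of_lt_of_le h6.2 ((le_max_right _ _).trans hR)⟩, t, h2, h3,
        ?_, h5⟩
      exact (hR₀ z h6.1 R ((hM z h1).trans ((le_max_left _ _).trans hR)) t h2 h3).2 h4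
  · intro z hz
    rw [Finset.mem_filter] at hz
    obtain ⟨h1, t, h2, h3, h4, h5⟩ := hz
    have h6 := (hCm z).1 h1
    exact ⟨h6.1, t, h2, ⟨R₀ z, fun R hR => (hR₀ z h6.1 R hR t h2 h3).2 h4⟩, h5⟩

theorem Occ_mono {d : ℕ} {ε N N' : ℝ} (h : N ≤ N') (F : Finset (X d)) :
    Occ ε N F ≤ Occ ε N' F := by
  classical
  unfold Occ
  apply Finset.card_le_card
  intro z hz
  rw [Finset.mem_filter] at hz ⊢
  obtain ⟨h1, t, h2, h3, h4⟩ := hz
  exact ⟨h1, t, h2, h3.trans h, h4⟩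

theorem t_FIN (_h1 : S_PO1) (_h2 : S_MB) (hZO : S_ZO) (hMEAS : S_MEAS) (hFSF : S_FSF) : S_FIN := by
  classical
  intro Ω m0 P _ d Pi ε hd hε hC hP he
  obtain ⟨fmeas, flaw, fmem, fres, funit⟩ := hFSF Ω P d Pi hd hP
  obtain ⟨mres, -, -, -, -, -, -, -, -, -, -, mOcc, -⟩ := hMEAS d ε hd hε
  obtain ⟨c, hc, hmain⟩ := hC
  -- the filtration
  let ℱ : Filtration ℕ m0 :=
    { seq := fun Q => MeasurableSpace.comap (fun ω => fs (Pi ω) (Q : ℝ)) inferInstance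
      mono' := by
        intro R Q hRQ
        have e : (fun ω => fs (Pi ω) (R : ℝ)) =
            (res (Metric.ball (0 : V d) R)) ∘ (fun ω => fs (Pi ω) (Q : ℝ)) := by
          funext ω
          exact fres ω R Q (by exact_mod_cast hRQ)
        simp only
        rw [e, ← MeasurableSpace.comap_comp]
        exact MeasurableSpace.comap_mono (mres _ measurableSet_ball).comap_le
      le' := fun Q => (fmeas Q).comap_le }
  have hℱ : ∀ (Q : ℕ) (A : Set (Finset (X d))), MeasurableSet A →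
      MeasurableSet[ℱ Q] ((fun ω => fs (Pi ω) (Q : ℝ)) ⁻¹' A) := fun Q A hA => ⟨A, hA, rfl⟩
  have hsup : ∀ Q, ℱ Q ≤ ⨆ n, ℱ n := fun Q => le_iSup (fun n => ℱ n) Q
  -- the events
  let I : ℕ → Set Ω := fun m => {ω | ∃ N : ℕ, ∃ Q₁ : ℕ, ∀ Q : ℕ, Q₁ ≤ Q →
    m ≤ Occ ε (N : ℝ) (fs (Pi ω) (Q : ℝ))}
  have hIm : ∀ m, MeasurableSet[⨆ n, ℱ n] (I m) := by
    intro m
    have e : I m = ⋃ N : ℕ, ⋃ Q₁ : ℕ, ⋂ Q : ℕ, ⋂ (_ : Q₁ ≤ Q),
        (fun ω => fs (Pi ω) (Q : ℝ)) ⁻¹' {F : Finset (X d) | m ≤ Occ ε (N : ℝ) F} := by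
      ext ω
      simp only [I, Set.mem_iUnion, Set.mem_iInter, Set.mem_preimage]
      rfl
    rw [e]
    refine MeasurableSet.iUnion fun N => MeasurableSet.iUnion fun Q₁ => MeasurableSet.iInter fun Q =>
      MeasurableSet.iInter fun _ => ?_
    exact hsup Q _ (hℱ Q _ (mOcc N m))
  have hIle : (⨆ n, ℱ n) ≤ m0 := iSup_le fun n => ℱ.le n
  have hIm0 : ∀ m, MeasurableSet (I m) := fun m => hIle _ (hIm m)
  have hanti : ∀ m m', m ≤ m' → I m' ⊆ I m := by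
    rintro m m' hmm ω ⟨N, Q₁, h⟩
    exact ⟨N, Q₁, fun Q hQ => hmm.trans (h Q hQ)⟩
  -- stabilisation
  have hstab : ∀ᵐ ω ∂P, ∀ N : ℝ, ∃ (R₁ : ℝ) (Z : Finset (X d)),
      (∀ R, R₁ ≤ R → Occ ε N (fs (Pi ω) R) = Z.card) ∧
      ∀ z ∈ Z, z ∈ Pi ω ∧ Occupies ε (Pi ω) z := by
    filter_upwards [funit, he] with ω h1 h2 N
    exact stab (Pi ω) (fmem ω) h1 h2 N
  -- the inequality for one `m`
  have key : ∀ (R m : ℕ) (A : Set (Finset (X d))), MeasurableSet A →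
      ENNReal.ofReal c * P ((fun ω => fs (Pi ω) (R : ℝ)) ⁻¹' A) ≤
        P ((fun ω => fs (Pi ω) (R : ℝ)) ⁻¹' A ∩ I m) := by
    intro R m A hA
    obtain ⟨N, Q₀, hN⟩ := hmain R m A hA
    obtain ⟨N', hN'⟩ := exists_nat_ge N
    obtain ⟨Q₂, hQ₂⟩ := exists_nat_ge Q₀
    set B : Set Ω := (fun ω => fs (Pi ω) (R : ℝ)) ⁻¹' A with hB
    have hBm : MeasurableSet B := fmeas R hA
    let E : ℕ → Set Ω := fun Q => B ∩ (fun ω => fs (Pi ω) (Q : ℝ)) ⁻¹' {F | m ≤ Occ ε (N' : ℝ) F}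
    have hEm : ∀ Q, MeasurableSet (E Q) := fun Q => hBm.inter (fmeas Q (mOcc N' m))
    have hE : ∀ Q, max R Q₂ ≤ Q → ENNReal.ofReal c * P B ≤ P (E Q) := by
      intro Q hQ
      have hRQ : (R : ℝ) ≤ Q := by exact_mod_cast (le_max_left R Q₂).trans hQ
      have hQQ : Q₀ ≤ (Q : ℝ) := hQ₂.trans (by exact_mod_cast (le_max_right R Q₂).trans hQ)
      have h1 := hN Q hQQ
      have h2 : P B = PQ d R A := by
        rw [← flaw R, Measure.map_apply (fmeas R) hA]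
      have h3 : MeasurableSet {F : Finset (X d) | res (Metric.ball 0 R) F ∈ A ∧ m ≤ Occ ε N F} :=
        (mres _ measurableSet_ball hA).inter (mOcc N m)
      have h4 : PQ d Q {F | res (Metric.ball 0 R) F ∈ A ∧ m ≤ Occ ε N F} ≤ P (E Q) := by
        rw [← flaw Q, Measure.map_apply (fmeas Q) h3]
        apply measure_mono
        rintro ω ⟨g1, g2⟩
        refine ⟨?_, ?_⟩
        · show fs (Pi ω) (R : ℝ) ∈ A
          rw [fres ω R Q hRQ]
          exact g1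
        · exact le_trans g2 (Occ_mono hN' _)
      calc ENNReal.ofReal c * P B = PQ d R A * ENNReal.ofReal c := by rw [h2, mul_comm]
        _ ≤ _ := h1
        _ ≤ _ := h4
    let U : ℕ → Set Ω := fun n => ⋃ Q : ℕ, ⋃ (_ : n ≤ Q), E Q
    have hUm : ∀ n, MeasurableSet (U n) := fun n =>
      MeasurableSet.iUnion fun Q => MeasurableSet.iUnion fun _ => hEm Q
    have hUa : Antitone U := by
      intro n n' hn ω hω
      simp only [U, Set.mem_iUnion] at hω ⊢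
      obtain ⟨Q, hQ, h⟩ := hω
      exact ⟨Q, hn.trans hQ, h⟩
    have hUl : ∀ n, ENNReal.ofReal c * P B ≤ P (U n) := by
      intro n
      refine (hE (max n (max R Q₂)) (le_max_right _ _)).trans (measure_mono ?_)
      intro ω hω
      simp only [U, Set.mem_iUnion]
      exact ⟨_, le_max_left _ _, hω⟩
    refine (cont_above P U hUm hUa _ hUl).trans ?_
    apply measure_mono_ae
    filter_upwards [hstab] with ω hω hωU
    have hωU' : ∀ n, ∃ Q, n ≤ Q ∧ ω ∈ E Q := by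
      intro n
      have := Set.mem_iInter.1 hωU n
      simp only [U, Set.mem_iUnion] at this
      obtain ⟨Q, hQ, h⟩ := this
      exact ⟨Q, hQ, h⟩
    obtain ⟨Q, -, hQ⟩ := hωU' 0
    refine ⟨hQ.1, N', ?_⟩
    obtain ⟨R₁, Z, hZ, -⟩ := hω N'
    obtain ⟨Q₁, hQ₁⟩ := exists_nat_ge R₁
    obtain ⟨Q', hQ', h5⟩ := hωU' Q₁
    have h6 : m ≤ Z.card := by
      rw [← hZ Q' (hQ₁.trans (by exact_mod_cast hQ'))]
      exact h5.2
    refine ⟨Q₁, fun Q'' hQ'' => ?_⟩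
    rw [hZ Q'' (hQ₁.trans (by exact_mod_cast hQ''))]
    exact h6
  -- the zero-one law
  have hI1 : P (⋂ m, I m) = 1 := by
    refine hZO Ω m0 P ℱ (⋂ m, I m) c hc (MeasurableSet.iInter hIm) ?_
    intro n A hA
    obtain ⟨A', hA', rfl⟩ := hA
    have hBm : MeasurableSet ((fun ω => fs (Pi ω) (n : ℝ)) ⁻¹' A') := fmeas n hA'
    have h := cont_above P (fun m => (fun ω => fs (Pi ω) (n : ℝ)) ⁻¹' A' ∩ I m)
      (fun m => hBm.inter (hIm0 m))
      (fun m m' hmm => Set.inter_subset_inter_right _ (hanti m m' hmm)) _ (fun m => key n m A' hA')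
    rw [← Set.inter_iInter, Set.inter_comm] at h
    exact h
  have hI2 : ∀ᵐ ω ∂P, ω ∈ ⋂ m, I m := by
    rw [← prob_compl_eq_zero_iff (MeasurableSet.iInter hIm0)] at hI1
    exact hI1
  filter_upwards [hI2, hstab] with ω h1 h2
  intro hfin
  have h3 := Set.mem_iInter.1 h1 (hfin.toFinset.card + 1)
  obtain ⟨N, Q₁, h4⟩ := h3
  obtain ⟨R₁, Z, hZ, hZ2⟩ := h2 N
  obtain ⟨Q₂, hQ₂⟩ := exists_nat_ge R₁
  have h5 := h4 (max Q₁ Q₂) (le_max_left _ _)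
  rw [hZ _ (hQ₂.trans (by exact_mod_cast le_max_right Q₁ Q₂))] at h5
  have h6 : Z ⊆ hfin.toFinset := by
    intro z hz
    rw [Set.Finite.mem_toFinset]
    exact hZ2 z hz
  have h7 := Finset.card_le_card h6
  omega

end Run7.h622.Met
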