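import Pool.Agent.Run7.h146.Met.I2

set_option autoImplicit false

open MeasureTheory Filter Topology ENNReal

namespace Run7.h622.Met

open Run7.h146.Met

theorem t_FSF (_h1 : S_PO1) (hMB : S_MB) (_h3 : S_MEAS) : S_FSF := by
  classical
  intro Ω _ P _ d Pi hd hP
  have hfin : ∀ ω (R : ℝ), (Pi ω ∩ {z | ‖z.1‖ < R}).Finite := by
    intro ω R
    obtain ⟨n, hn⟩ := exists_nat_ge R
    refine (hP.fin ω n).subset ?_
    rintro z ⟨h1, h2⟩
    exact ⟨h1, lt_of_lt_of_le h2 hn⟩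
  have hfs : ∀ ω (R : ℕ), fs (Pi ω) (R : ℝ) = (hP.fin ω R).toFinset := by
    intro ω R
    unfold fs
    rw [dif_pos (hP.fin ω R)]
  have hmem : ∀ ω (R : ℝ) (z : X d), z ∈ fs (Pi ω) R ↔ z ∈ Pi ω ∧ ‖z.1‖ < R := by
    intro ω R z
    unfold fs
    rw [dif_pos (hfin ω R), Set.Finite.mem_toFinset]
    rfl
  have hfun : ∀ Q : ℕ, (fun ω => fs (Pi ω) (Q : ℝ)) = fun ω => (hP.fin ω Q).toFinset := by
    intro Q
    funext ω
    exact hfs ω Q
  have hmeas : ∀ Q : ℕ, Measurable fun ω => fs (Pi ω) (Q : ℝ) := by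
    intro Q
    rw [hfun Q]
    exact hP.meas Q
  have hlaw : ∀ Q : ℕ, P.map (fun ω => fs (Pi ω) (Q : ℝ)) = PQ d Q := by
    intro Q
    rw [hfun Q]
    exact hP.law Q
  refine ⟨hmeas, hlaw, hmem, ?_, ?_⟩
  · intro ω R Q hRQ
    ext z
    unfold res
    rw [Finset.mem_filter, hmem, hmem, mem_ball_zero_iff]
    constructor
    · rintro ⟨h1, h2⟩
      exact ⟨⟨h1, lt_of_lt_of_le h2 hRQ⟩, h2⟩
    · rintro ⟨⟨h1, _⟩, h2⟩
      exact ⟨h1, h2⟩
  · have key : ∀ Q : ℕ, ∀ᵐ ω ∂P, ∀ z ∈ fs (Pi ω) (Q : ℝ), ‖z.2‖ = 1 := by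
      intro Q
      obtain ⟨-, -, -, hB⟩ := hMB d hd
      obtain ⟨-, -, -, h0⟩ := hB (Metric.ball (0 : V d) Q) measurableSet_ball
        measure_ball_lt_top.ne
      have h1 : P.map (fun ω => fs (Pi ω) (Q : ℝ)) {F | ∃ z ∈ F, ‖z.2‖ ≠ 1} = 0 := by
        rw [hlaw Q]; exact h0
      have h2 := Measure.le_map_apply (μ := P) (hmeas Q).aemeasurable {F | ∃ z ∈ F, ‖z.2‖ ≠ 1}
      rw [h1, nonpos_iff_eq_zero] at h2
      rw [ae_iff]
      convert h2 using 2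
      ext ω
      simp only [Set.mem_setOf_eq, Set.mem_preimage, not_forall, exists_prop, ne_eq]
    have hall := ae_all_iff.2 key
    filter_upwards [hall] with ω hω z hz
    obtain ⟨Q, hQ⟩ := exists_nat_gt ‖z.1‖
    exact hω Q z ((hmem ω Q z).2 ⟨hz, hQ⟩)

end Run7.h622.Met
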